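import Pool.Agent.HUK.Stmts

/-!
# Squad HUK, row ADH: a stably irreducible polynomial has a type independent of the field (helper59)
-/

set_option autoImplicit false

namespace Pool.Agent.HUK.H59

open Polynomial NumberField Matrix Pool.Agent.MTL Pool.Agent.MTL.H34 Pool.Agent.Helper78_MT
  Pool.Agent.HIK Pool.Agent.HIP Pool.Agent.MTPN Pool.Agent.MTN

/-- a bound for the degree and the houses of the coefficients of one polynomial -/
theorem bnd {k : Type} [Field k] [NumberField k] (r : (𝓞 k)[X]) :
    ∃ H : ℕ, r.natDegree ≤ H ∧ ∀ i, house ((r.coeff i : 𝓞 k) : k) ≤ H := by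
  classical
  refine ⟨r.natDegree + ∑ i ∈ Finset.range (r.natDegree + 1),
    ⌈house ((r.coeff i : 𝓞 k) : k)⌉₊, Nat.le_add_right _ _, fun i => ?_⟩
  by_cases hi : i ≤ r.natDegree
  · refine (Nat.le_ceil _).trans ?_
    have h := Finset.single_le_sum (f := fun i => ⌈house ((r.coeff i : 𝓞 k) : k)⌉₊)
      (fun _ _ => Nat.zero_le _) (Finset.mem_range.2 (Nat.lt_succ_of_le hi))
    exact_mod_cast h.trans (Nat.le_add_left _ _)
  · rw [coeff_eq_zero_of_natDegree_lt (not_le.1 hi)]
    have : house (((0 : 𝓞 k) : 𝓞 k) : k) = 0 := by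
      simp [house]
    rw [this]
    exact Nat.cast_nonneg _

/-- Row ADH. -/
theorem adh (hoi : HoiStmt) : AdhStmt := by
  intro k _ _ g hg
  obtain ⟨A, B, r, hr0, hr⟩ := hg.sep
  have hb : ∀ j, ∃ H : ℕ, (g.coeff j).natDegree ≤ H ∧
      ∀ i, house (((g.coeff j).coeff i : 𝓞 k) : k) ≤ H := fun j => bnd (g.coeff j)
  choose H1 h1 h2 using hb
  obtain ⟨H2, h3, h4⟩ := bnd r
  refine ⟨∑ j ∈ Finset.range (g.natDegree + 1), H1 j + H2, ?_⟩
  intro K _ _ j
  have hinj : Function.Injective (RingOfIntegers.mapRingHom j) := by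
    intro x y hxy
    apply RingOfIntegers.ext
    exact j.injective (congrArg (fun z : 𝓞 K => (z : K)) hxy)
  have hinj1 : Function.Injective (mapRingHom (RingOfIntegers.mapRingHom j)) :=
    map_injective _ hinj
  have hco : ∀ a, (pj j g).coeff a = (g.coeff a).map (RingOfIntegers.mapRingHom j) := by
    intro a
    exact coeff_map _ _
  have hho : ∀ z : 𝓞 k, house ((RingOfIntegers.mapRingHom j z : 𝓞 K) : K) = house (z : k) := by
    intro z
    exact hoi k K j (z : k)
  have hle1 : ∀ a ≤ g.natDegree, H1 a ≤ ∑ j ∈ Finset.range (g.natDegree + 1), H1 j := by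
    intro a ha
    exact Finset.single_le_sum (f := H1) (fun _ _ => Nat.zero_le _)
      (Finset.mem_range.2 (Nat.lt_succ_of_le ha))
  refine ⟨?_, ?_, ?_, hg.irr K j, ?_, ?_, ?_⟩
  · exact hg.monic.map _
  · exact natDegree_map_eq_of_injective hinj1 g
  · exact hg.deg
  · intro a
    rw [hco]
    by_cases ha : a ≤ g.natDegree
    · exact (natDegree_map_le).trans ((h1 a).trans ((hle1 a ha).trans (Nat.le_add_right _ _)))
    · rw [coeff_eq_zero_of_natDegree_lt (not_le.1 ha)]
      simp
  · intro a i
    rw [hco, coeff_map, hho]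
    by_cases ha : a ≤ g.natDegree
    · refine (h2 a i).trans ?_
      exact_mod_cast (hle1 a ha).trans (Nat.le_add_right _ _)
    · rw [coeff_eq_zero_of_natDegree_lt (not_le.1 ha)]
      have : house ((((0 : (𝓞 k)[X]).coeff i : 𝓞 k)) : k) = 0 := by
        simp [house]
      rw [this]
      exact Nat.cast_nonneg _
  · refine ⟨pj j A, pj j B, r.map (RingOfIntegers.mapRingHom j), ?_, ?_, ?_, ?_⟩
    · exact (Polynomial.map_ne_zero_iff hinj).2 hr0
    · have h := congrArg (pj j) hr
      rw [map_add, map_mul, map_mul] at h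
      rw [show derivative (pj j g) = pj j (derivative g) from derivative_map _ _, h]
      exact map_C _
    · exact (natDegree_map_le).trans (h3.trans (Nat.le_add_left _ _))
    · intro i
      rw [coeff_map, hho]
      refine (h4 i).trans ?_
      exact_mod_cast Nat.le_add_left _ _

end Pool.Agent.HUK.H59
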